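import Pool.Agent.N136.QL.FLC
import Pool.Agent.N728.QG.Def

/-!
# QG/FLC: the fundamental lemma of the sieve, at most `κ` classes for the primes in `(y, z1]` (helper700)

The auxiliary lemmas are those of `Pool/Agent/N136/QL/FLC.lean`.
-/

set_option autoImplicit false
set_option maxHeartbeats 4000000

namespace Pool.Agent.N700.QG

open Finset Pool.Agent.N136.QL

/-- the count of a class, without the auxiliary modulus -/
lemma flc_class (n2 : ℕ) (T : Finset ℕ) (c : ℕ → ℕ) (hT : ∀ p ∈ T, p.Prime)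
    (hc : ∀ p ∈ T, c p < p) :
    |(#((Ioc 0 n2).filter (fun n => ∀ p ∈ T, n % p = c p)) : ℝ) - (n2 : ℝ) / ∏ p ∈ T, (p : ℝ)| ≤ 1 := by
  have h1 := fl_classcount 0 n2 1 0 one_pos (Nat.zero_le _) T c
    (fun p hp => ⟨hT p hp, fun hd => (hT p hp).one_lt.ne' (Nat.dvd_one.1 hd)⟩) hc
  have e0 : (Ioc 0 n2).filter (fun n => n % 1 = 0) = Ioc 0 n2 :=
    Finset.filter_true_of_mem fun n _ => Nat.mod_one n
  rw [e0] at h1
  have e1 : ((n2 : ℝ) - (0 : ℕ)) / (1 : ℕ) * ∏ p ∈ T, (1 / (p : ℝ)) = (n2 : ℝ) / ∏ p ∈ T, (p : ℝ) := by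
    rw [Nat.cast_zero, sub_zero, Nat.cast_one, div_one, Finset.prod_div_distrib, Finset.prod_const_one]
    ring
  rwa [e1] at h1

theorem t_FLC : Pool.Agent.N728.QG.S_FLC := by
  classical
  intro κ
  obtain ⟨C, hC, H⟩ := Pool.Agent.TH882.FL.fl1 κ
  refine ⟨C * C + 2 + 4 * C, by omega, fun b y z1 Om J1 J2 hb hy hyz hOm hJ => ?_⟩
  have hCb : C ≤ b := by nlinarith
  have hCy : C ≤ y := by nlinarith
  have hz : 2 ≤ z1 := by nlinarith
  obtain ⟨J, hJ1, hJ2⟩ := exists_J z1 hz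
  set P' := (Ioc y z1).filter Nat.Prime with hP'
  have hmem : ∀ p, p ∈ P' ↔ p.Prime ∧ y < p ∧ p ≤ z1 := by
    intro p
    rw [hP', mem_filter, mem_Ioc]
    exact and_comm
  set n2 := (J2 - J1).toNat with hn2
  have hn2' : (n2 : ℤ) = J2 - J1 := Int.toNat_of_nonneg (by omega)
  have hn2R : (n2 : ℝ) = (J2 : ℝ) - J1 := by
    have : ((n2 : ℤ) : ℝ) = ((J2 - J1 : ℤ) : ℝ) := by rw [hn2']
    push_cast at this
    exact this
  have hOm' : ∀ p ∈ P', Om p ⊆ range p ∧ (Om p).card ≤ κ := fun p hp => by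
    have h1 := (hmem p).1 hp
    exact hOm p h1.1 h1.2.1 h1.2.2
  have hcard : ∀ p ∈ P', #(sh J1 Om p) = #(Om p) := fun p hp =>
    card_sh J1 Om ((hmem p).1 hp).1.pos (hOm' p hp).1
  have h1 := H b J y P' (sh J1 Om) hCb hCy
    (fun p hp => ⟨((hmem p).1 hp).1, ((hmem p).1 hp).2.1, ((hmem p).1 hp).2.2.trans hJ1⟩)
    (fun p hp => by
      rw [hcard p hp]
      exact (hOm' p hp).2)
    (Ioc 0 n2) (n2 : ℝ) (Nat.cast_nonneg _)
    (fun T hT c hc => flc_class n2 T c (fun p hp => ((hmem p).1 (hT hp)).1)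
      (fun p hp => mem_range.1 ((mem_filter.1 (hc p hp)).1)))
  have hprod : ∏ p ∈ P', (1 - (#(sh J1 Om p) : ℝ) / p) = ∏ p ∈ P', (1 - (#(Om p) : ℝ) / p) :=
    Finset.prod_congr rfl fun p hp => by rw [hcard p hp]
  rw [hprod, hn2R] at h1
  have h2 : #((Ioc J1 J2).filter
      (fun t : ℤ => ∀ p : ℕ, p.Prime → y < p → p ≤ z1 → (t % p).toNat ∉ Om p)) =
      #((Ioc 0 n2).filter (fun n => ∀ p ∈ P', n % p ∉ sh J1 Om p)) := by
    symm
    refine Finset.card_bij (fun n _ => J1 + (n : ℤ)) (fun n hn => ?_) (fun n _ n' _ h => ?_)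
      (fun t ht => ?_)
    · rw [mem_filter, mem_Ioc] at hn ⊢
      refine ⟨by omega, fun p hp hpy hpz hc => ?_⟩
      exact hn.2 p ((hmem p).2 ⟨hp, hpy, hpz⟩) ((mem_sh J1 Om hp.pos n).2 hc)
    · omega
    · rw [mem_filter, mem_Ioc] at ht
      refine ⟨(t - J1).toNat, ?_, by omega⟩
      rw [mem_filter, mem_Ioc]
      refine ⟨by omega, fun p hp hc => ?_⟩
      have h2 := (mem_sh J1 Om ((hmem p).1 hp).1.pos _).1 hc
      have h3 : J1 + (((t - J1).toNat : ℕ) : ℤ) = t := by omega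
      rw [h3] at h2
      exact ht.2 p ((hmem p).1 hp).1 ((hmem p).1 hp).2.1 ((hmem p).1 hp).2.2 h2
  have h3 := err C z1 b J hz (by nlinarith) hJ2
  have h4 : ((J : ℝ) + 2) * (((2 ^ 2 ^ J : ℕ) : ℝ) ^ (C * b)) ^ 2 ≤
      (C : ℝ) ^ C * (((J : ℝ) + 2) * (((2 ^ 2 ^ J : ℕ) : ℝ) ^ (C * b)) ^ 2) := by
    apply le_mul_of_one_le_left (by positivity)
    exact one_le_pow₀ (by exact_mod_cast hC)
  rw [← h2] at h1
  refine le_trans ?_ (h1.trans ?_)
  · exact le_of_eq (by congr!)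
  · linarith

end Pool.Agent.N700.QG
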